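import Pool.Agent.H5.DPG.Stmts

/-!
# Row DSB of the board dpg
-/

set_option autoImplicit false

namespace Pool.DPG

open Pool.PG

theorem dsb_thm (h1 : ATLStmt) (h2 : FSBStmt) : DSBStmt := by
  intro g i X T hX
  obtain ⟨hlen, hsuc⟩ := hX
  obtain ⟨hal, hU, hA, -, h4, h5⟩ := h1 g i X T hlen
  obtain ⟨hm, hd, -, -⟩ := h2
  have key : ∀ v ∈ fs g (dif g X (att i g X T)), own g v = i → ∀ w ∈ fs g X, w ∈ suc g v →
      w ∈ fs g (dif g X (att i g X T)) := by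
    intro v hv ho w hw hvw
    rw [hd, Finset.mem_sdiff] at hv ⊢
    exact ⟨hw, h4 v hv.1 hv.2 ho w hw hvw⟩
  refine ⟨⟨(hm g _).1, ?_⟩, key⟩
  intro v hv
  by_cases ho : own g v = i
  · have hv' := hv
    rw [hd, Finset.mem_sdiff] at hv'
    obtain ⟨w, hw, hvw⟩ := hsuc v hv'.1
    exact ⟨w, key v hv ho w hw hvw, hvw⟩
  · have hv' := hv
    rw [hd, Finset.mem_sdiff] at hv'
    obtain ⟨w, hw, hwA, hvw⟩ := h5 v hv'.1 hv'.2 ho
    exact ⟨w, by rw [hd, Finset.mem_sdiff]; exact ⟨hw, hwA⟩, hvw⟩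

end Pool.DPG
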